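import Mathlib

set_option autoImplicit false

namespace Pool.Agent.Results.MP_dea8c9_co.EvenOrderBound

open Finset

/-- each symbol occurs in `n` cells -/
lemma card_symbol {n : ℕ} (A : Fin n → Fin n → Fin n) (hA : ∀ i, Function.Bijective (A i)) (u : Fin n) :
    (univ.filter (fun p : Fin n × Fin n => A p.1 p.2 = u)).card = n := by
  classical
  rw [← univ_product_univ, card_filter, sum_product]
  have : ∀ i : Fin n, (∑ j : Fin n, (if A i j = u then 1 else 0)) = 1 := by
    intro i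
    obtain ⟨j0, hj0⟩ := (hA i).2 u
    rw [sum_eq_single j0]
    · simp [hj0]
    · intro j _ hj
      rw [if_neg]
      intro h
      exact hj ((hA i).1 (h.trans hj0.symm))
    · simp
  simp only [this]
  simp

/-- number of coincident ordered pairs -/
lemma pair_count {α β : Type*} [Fintype α] [Fintype β] [DecidableEq β] (f : α → β) :
    (∑ p : α, ∑ q : α, (if f p = f q then (1 : ℤ) else 0)) =
      ∑ b : β, ((univ.filter (fun p : α => f p = b)).card : ℤ) ^ 2 := by
  classical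
  have h1 : ∀ p : α, (∑ q : α, (if f p = f q then (1 : ℤ) else 0)) =
      ((univ.filter (fun q : α => f q = f p)).card : ℤ) := by
    intro p
    rw [card_filter]
    push_cast
    refine sum_congr rfl fun q _ => ?_
    by_cases h : f p = f q
    · simp [h]
    · rw [if_neg h, if_neg (fun h' => h h'.symm)]
  simp only [h1]
  rw [← sum_fiberwise (s := univ) (g := f)]
  refine sum_congr rfl fun b _ => ?_
  rw [sum_congr rfl (g := fun _ => ((univ.filter (fun q : α => f q = b)).card : ℤ))]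
  · rw [sum_const, nsmul_eq_mul]; ring
  · intro p hp
    rw [(mem_filter.1 hp).2]

/-- parity argument: in even order some off-diagonal count in every row equals one -/
lemma row_sq_bound {n : ℕ} (hn : Even n) (N : Fin n → Fin n → ℕ)
    (hrow : ∀ u, ∑ v, N u v = n) (hd : ∀ u, N u u = 1)
    (ho : ∀ u v, u ≠ v → N u v + N v u = 2) :
    (∑ u, ∑ v, ((N u v : ℤ)) ^ 2) ≤ (n : ℤ) * (n - 2) + n ^ 2 := by
  classical
  -- g u v = N (N-1)
  set g : Fin n → Fin n → ℤ := fun u v => (N u v : ℤ) * ((N u v : ℤ) - 1) with hg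
  have hex : ∀ u, ∃ v, v ≠ u ∧ N u v = 1 := by
    intro u
    by_contra hcon
    push Not at hcon
    have h1 : ∑ v, N u v = N u u + ∑ v ∈ univ.erase u, N u v := by
      rw [← add_sum_erase univ _ (mem_univ u)]
    have h2 : Even (∑ v ∈ univ.erase u, N u v) := by
      refine even_sum _ fun v hv => ?_
      have hvu : v ≠ u := (mem_erase.1 hv).1
      have h3 := ho u v hvu.symm
      have h4 := hcon v hvu
      have h5 : N u v = 0 ∨ N u v = 2 := by omega
      rcases h5 with h5 | h5 <;> rw [h5] <;> decide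
    rw [hrow u, hd u] at h1
    rw [h1] at hn
    obtain ⟨a, ha⟩ := h2
    obtain ⟨b, hb⟩ := hn
    omega
  have hsym : ∀ u v, g u v + g v u ≤ 2 := by
    intro u v
    by_cases huv : u = v
    · subst huv
      simp [hg, hd]
    · have h3 := ho u v huv
      have h4 : (N v u : ℤ) = 2 - N u v := by
        have : ((N u v + N v u : ℕ) : ℤ) = 2 := by rw [h3]; rfl
        push_cast at this; linarith
      have h6 : N u v ≤ 2 := by omega
      simp only [hg, h4]
      interval_cases (N u v) <;> norm_num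
  have hzero : ∀ u v, N u v = 1 → (u = v ∨ u ≠ v) → g u v + g v u = 0 := by
    intro u v h1 _
    by_cases huv : u = v
    · subst huv
      simp [hg, hd]
    · have h3 := ho u v huv
      have h4 : N v u = 1 := by omega
      simp [hg, h1, h4]
  have hrowb : ∀ u, ∑ v, (g u v + g v u) ≤ 2 * ((n : ℤ) - 2) := by
    intro u
    obtain ⟨v0, hv0, hv1⟩ := hex u
    rw [← add_sum_erase univ _ (mem_univ u),
      ← add_sum_erase (univ.erase u) _ (mem_erase.2 ⟨hv0, mem_univ v0⟩)]
    have e1 : g u u + g u u = 0 := by simp [hg, hd]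
    have e2 : g u v0 + g v0 u = 0 := hzero u v0 hv1 (em _)
    rw [e1, e2]
    have e3 : ∑ v ∈ (univ.erase u).erase v0, (g u v + g v u) ≤
        ∑ v ∈ (univ.erase u).erase v0, (2 : ℤ) := sum_le_sum fun v _ => hsym u v
    rw [sum_const, nsmul_eq_mul] at e3
    have hc : (((univ : Finset (Fin n)).erase u).erase v0).card = n - 2 := by
      rw [card_erase_of_mem (mem_erase.2 ⟨hv0, mem_univ v0⟩), card_erase_of_mem (mem_univ u),
        card_univ, Fintype.card_fin]
      rfl
    have hn2 : 2 ≤ n := by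
      have hu := u.2
      have hv := v0.2
      have : (v0 : ℕ) ≠ u := fun h => hv0 (Fin.ext h)
      omega
    rw [hc] at e3
    push_cast [Nat.cast_sub hn2] at e3
    linarith
  have hsum : 2 * (∑ u, ∑ v, g u v) ≤ (n : ℤ) * (2 * ((n : ℤ) - 2)) := by
    have e1 : (∑ u, ∑ v, (g u v + g v u)) = 2 * (∑ u, ∑ v, g u v) := by
      simp only [sum_add_distrib]
      rw [sum_comm (f := fun u v => g v u)]
      ring
    rw [← e1]
    calc (∑ u, ∑ v, (g u v + g v u)) ≤ ∑ _u : Fin n, 2 * ((n : ℤ) - 2) :=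
          sum_le_sum fun u _ => hrowb u
      _ = (n : ℤ) * (2 * ((n : ℤ) - 2)) := by simp
  have htot : (∑ u, ∑ v, ((N u v : ℤ)) ^ 2) = (∑ u, ∑ v, g u v) + n ^ 2 := by
    have e1 : ∀ u, ∑ v, ((N u v : ℤ)) ^ 2 = (∑ v, g u v) + n := by
      intro u
      have e2 : (n : ℤ) = ∑ v, (N u v : ℤ) := by
        rw [← Nat.cast_sum, hrow u]
      conv_rhs => rw [e2]
      rw [← sum_add_distrib]
      refine sum_congr rfl fun v _ => ?_
      simp only [hg]; ring
    simp only [e1]
    rw [sum_add_distrib]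
    simp
    ring
  rw [htot]
  linarith


/-- number of ordered pairs of cells in general position -/
lemma card_general (n : ℕ) :
    (∑ p : Fin n × Fin n, ∑ q : Fin n × Fin n,
      (if p.1 ≠ q.1 ∧ p.2 ≠ q.2 then (1 : ℤ) else 0)) = (n : ℤ) ^ 2 * ((n : ℤ) - 1) ^ 2 := by
  classical
  have h1 : ∀ i : Fin n, (∑ j : Fin n, (if i ≠ j then (1 : ℤ) else 0)) = (n : ℤ) - 1 := by
    intro i
    have : ∀ j : Fin n, (if i ≠ j then (1 : ℤ) else 0) = 1 - (if i = j then 1 else 0) := by
      intro j; by_cases h : i = j <;> simp [h]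
    simp only [this]
    rw [sum_sub_distrib]
    simp
  have h2 : ∀ p : Fin n × Fin n, (∑ q : Fin n × Fin n,
      (if p.1 ≠ q.1 ∧ p.2 ≠ q.2 then (1 : ℤ) else 0)) = ((n : ℤ) - 1) ^ 2 := by
    intro p
    rw [Fintype.sum_prod_type]
    have : ∀ i j : Fin n, (if p.1 ≠ (i, j).1 ∧ p.2 ≠ (i, j).2 then (1 : ℤ) else 0) =
        (if p.1 ≠ i then (1 : ℤ) else 0) * (if p.2 ≠ j then (1 : ℤ) else 0) := by
      intro i j
      by_cases h : p.1 = i <;> by_cases h' : p.2 = j <;> simp [h, h']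
    simp only [this]
    simp only [← mul_sum, h1]
    rw [← sum_mul, h1]
    ring
  simp only [h2]
  rw [sum_const, nsmul_eq_mul, card_univ, Fintype.card_prod, Fintype.card_fin]
  push_cast
  ring

section counting

variable {n k : ℕ} (L : Fin k → Fin n → Fin n → Fin n)

/-- agreement indicator -/
def e (a : Fin k) (p q : Fin n × Fin n) : ℤ := if L a p.1 p.2 = L a q.1 q.2 then 1 else 0

/-- number of squares which take equal values on the two cells -/
def s (p q : Fin n × Fin n) : ℤ := ∑ a, e L a p q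

variable (hL : ∀ a, (∀ i, Function.Bijective (L a i)) ∧
      (∀ j, Function.Bijective (fun i : Fin n => L a i j)))

include hL in
lemma e_sum (a : Fin k) : (∑ p, ∑ q, e L a p q) = (n : ℤ) ^ 3 := by
  classical
  have h := pair_count (fun p : Fin n × Fin n => L a p.1 p.2)
  simp only [e]
  rw [h]
  have : ∀ u : Fin n, ((univ.filter (fun p : Fin n × Fin n => L a p.1 p.2 = u)).card : ℤ) = n := by
    intro u
    rw [card_symbol (L a) (hL a).1 u]
  simp only [this]
  simp
  ring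

include hL in
lemma s_sum : (∑ p, ∑ q, s L p q) = (k : ℤ) * (n : ℤ) ^ 3 := by
  classical
  have h : (∑ p, ∑ q, s L p q) = ∑ a, ∑ p, ∑ q, e L a p q := by
    simp only [s]
    exact (sum_congr rfl fun p _ => sum_comm).trans sum_comm
  rw [h]
  simp only [e_sum L hL]
  simp

lemma e_mul (a b : Fin k) : (∑ p, ∑ q, e L a p q * e L b p q) =
    ∑ u, ∑ v, (((univ.filter (fun p : Fin n × Fin n =>
      L a p.1 p.2 = u ∧ L b p.1 p.2 = v)).card : ℤ)) ^ 2 := by
  classical
  have h := pair_count (fun p : Fin n × Fin n => (L a p.1 p.2, L b p.1 p.2))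
  rw [Fintype.sum_prod_type (f := fun x : Fin n × Fin n =>
    ((univ.filter (fun p : Fin n × Fin n => (L a p.1 p.2, L b p.1 p.2) = x)).card : ℤ) ^ 2)] at h
  simp only [Prod.mk.injEq] at h
  rw [← h]
  refine sum_congr rfl fun p _ => sum_congr rfl fun q _ => ?_
  simp only [e]
  by_cases h1 : L a p.1 p.2 = L a q.1 q.2 <;> by_cases h2 : L b p.1 p.2 = L b q.1 q.2 <;>
    simp [h1, h2]

lemma e_sq (a : Fin k) (p q : Fin n × Fin n) : e L a p q * e L a p q = e L a p q := by
  simp only [e]; split_ifs <;> norm_num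

variable (hQ : ∀ a b : Fin k, a ≠ b →
        (∀ u : Fin n,
          (univ.filter (fun p : Fin n × Fin n =>
            L a p.1 p.2 = u ∧ L b p.1 p.2 = u)).card = 1) ∧
        (∀ u v : Fin n, u ≠ v →
          (univ.filter (fun p : Fin n × Fin n =>
            (L a p.1 p.2 = u ∧ L b p.1 p.2 = v) ∨
            (L a p.1 p.2 = v ∧ L b p.1 p.2 = u))).card = 2))

include hL hQ in
lemma e_mul_le (hn : Even n) (a b : Fin k) (hab : a ≠ b) :
    (∑ p, ∑ q, e L a p q * e L b p q) ≤ (n : ℤ) * (n - 2) + n ^ 2 := by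
  classical
  rw [e_mul]
  refine row_sq_bound hn (fun u v => (univ.filter (fun p : Fin n × Fin n =>
      L a p.1 p.2 = u ∧ L b p.1 p.2 = v)).card) ?_ ?_ ?_
  · intro u
    have h := card_symbol (L a) (hL a).1 u
    conv_rhs => rw [← h]
    rw [card_eq_sum_card_fiberwise (f := fun p : Fin n × Fin n => L b p.1 p.2) (t := univ)
      (fun _ _ => by simp)]
    refine sum_congr rfl fun v _ => ?_
    rw [filter_filter]
  · intro u
    exact (hQ a b hab).1 u
  · intro u v huv
    have h := (hQ a b hab).2 u v huv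
    rw [← h, filter_or, card_union_of_disjoint]
    · rw [disjoint_filter]
      rintro p _ ⟨h1, _⟩ ⟨h2, _⟩
      exact huv (h1.symm.trans h2)

include hL hQ in
lemma s_sq_sum (hn : Even n) : (∑ p, ∑ q, s L p q ^ 2) ≤
    (k : ℤ) * (n : ℤ) ^ 3 + (k : ℤ) * ((k : ℤ) - 1) * ((n : ℤ) * (n - 2) + n ^ 2) := by
  classical
  have h : (∑ p, ∑ q, s L p q ^ 2) = ∑ a, ∑ b, ∑ p, ∑ q, e L a p q * e L b p q := by
    have h1 : ∀ p q, s L p q ^ 2 = ∑ a, ∑ b, e L a p q * e L b p q := by
      intro p q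
      rw [pow_two]
      simp only [s]
      rw [sum_mul_sum]
    simp only [h1]
    have h2 : ∀ a : Fin k, (∑ b, ∑ p, ∑ q, e L a p q * e L b p q) =
        ∑ p, ∑ q, ∑ b, e L a p q * e L b p q := by
      intro a
      symm
      exact (sum_congr rfl fun p _ => sum_comm).trans sum_comm
    simp only [h2]
    exact (sum_congr rfl fun p _ => sum_comm).trans sum_comm
  rw [h]
  have h3 : ∀ a : Fin k, (∑ b, ∑ p, ∑ q, e L a p q * e L b p q) ≤
      (n : ℤ) ^ 3 + ((k : ℤ) - 1) * ((n : ℤ) * (n - 2) + n ^ 2) := by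
    intro a
    rw [← add_sum_erase univ _ (mem_univ a)]
    have h4 : (∑ p, ∑ q, e L a p q * e L a p q) = (n : ℤ) ^ 3 := by
      simp only [e_sq]
      exact e_sum L hL a
    rw [h4]
    have h5 : ∑ b ∈ univ.erase a, (∑ p, ∑ q, e L a p q * e L b p q) ≤
        ∑ _b ∈ univ.erase a, ((n : ℤ) * (n - 2) + n ^ 2) := by
      refine sum_le_sum fun b hb => ?_
      exact e_mul_le L hL hQ hn a b (mem_erase.1 hb).1.symm
    have hk : 1 ≤ k := by have := a.2; omega
    rw [sum_const, nsmul_eq_mul, card_erase_of_mem (mem_univ a), card_univ, Fintype.card_fin,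
      Nat.cast_sub hk] at h5
    push_cast at h5
    linarith
  calc (∑ a, ∑ b, ∑ p, ∑ q, e L a p q * e L b p q)
      ≤ ∑ _a : Fin k, ((n : ℤ) ^ 3 + ((k : ℤ) - 1) * ((n : ℤ) * (n - 2) + n ^ 2)) :=
        sum_le_sum fun a _ => h3 a
    _ = _ := by
        rw [sum_const, nsmul_eq_mul, card_univ, Fintype.card_fin]; ring

/-- general-position indicator -/
def w (p q : Fin n × Fin n) : ℤ := if p.1 ≠ q.1 ∧ p.2 ≠ q.2 then 1 else 0

lemma s_diag (p : Fin n × Fin n) : s L p p = k := by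
  simp [s, e]

include hL in
lemma w_mul_s (p q : Fin n × Fin n) : w p q * s L p q = s L p q - (if p = q then (k : ℤ) else 0) := by
  classical
  by_cases hpq : p = q
  · subst hpq
    simp [w, s_diag]
  · rw [if_neg hpq, sub_zero]
    by_cases hw : p.1 ≠ q.1 ∧ p.2 ≠ q.2
    · rw [w, if_pos hw, one_mul]
    · rw [w, if_neg hw, zero_mul]
      symm
      refine sum_eq_zero fun a _ => ?_
      simp only [e]
      rw [if_neg]
      intro h
      by_cases h1 : p.1 = q.1
      · rw [h1] at h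
        exact hpq (Prod.ext h1 (((hL a).1 q.1).1 h))
      · have h2 : p.2 = q.2 := by
          by_contra h2
          exact hw ⟨h1, h2⟩
        rw [h2] at h
        exact h1 (((hL a).2 q.2).1 h)

include hL in
lemma w_mul_s_sq (p q : Fin n × Fin n) :
    w p q * s L p q ^ 2 = s L p q ^ 2 - (if p = q then (k : ℤ) ^ 2 else 0) := by
  classical
  have h := w_mul_s L hL p q
  by_cases hpq : p = q
  · subst hpq
    simp [w, s_diag]
  · rw [if_neg hpq, sub_zero] at h
    rw [if_neg hpq, sub_zero, pow_two, ← mul_assoc, h]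

include hL in
lemma ws_sum : (∑ p, ∑ q, w p q * s L p q) = (k : ℤ) * (n : ℤ) ^ 3 - n ^ 2 * k := by
  classical
  simp only [w_mul_s L hL, sum_sub_distrib]
  rw [s_sum L hL]
  congr 1
  simp only [sum_ite_eq, mem_univ, if_true]
  rw [sum_const, nsmul_eq_mul, card_univ, Fintype.card_prod, Fintype.card_fin]
  push_cast; ring

include hL hQ in
lemma ws_sq_sum (hn : Even n) : (∑ p, ∑ q, w p q * s L p q ^ 2) ≤
    (k : ℤ) * (n : ℤ) ^ 3 + (k : ℤ) * ((k : ℤ) - 1) * ((n : ℤ) * (n - 2) + n ^ 2) - n ^ 2 * k ^ 2 := by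
  classical
  simp only [w_mul_s_sq L hL, sum_sub_distrib]
  have h := s_sq_sum L hL hQ hn
  have h2 : (∑ p : Fin n × Fin n, ∑ q : Fin n × Fin n, (if p = q then (k : ℤ) ^ 2 else 0)) =
      n ^ 2 * k ^ 2 := by
    simp only [sum_ite_eq, mem_univ, if_true]
    rw [sum_const, nsmul_eq_mul, card_univ, Fintype.card_prod, Fintype.card_fin]
    push_cast; ring
  rw [h2]
  linarith

lemma w_sum : (∑ p : Fin n × Fin n, ∑ q : Fin n × Fin n, w p q) =
    (n : ℤ) ^ 2 * ((n : ℤ) - 1) ^ 2 := card_general n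

lemma w_nonneg (p q : Fin n × Fin n) : 0 ≤ w p q := by
  simp only [w]; split_ifs <;> norm_num

/-- the weighted sum of a quadratic polynomial in `s` -/
lemma quad_sum (x y z : ℤ) : (∑ p, ∑ q, w p q * (x * s L p q ^ 2 + y * s L p q + z)) =
    x * (∑ p, ∑ q, w p q * s L p q ^ 2) + y * (∑ p, ∑ q, w p q * s L p q) +
      z * (∑ p : Fin n × Fin n, ∑ q : Fin n × Fin n, w p q) := by
  simp only [mul_sum]
  simp only [← sum_add_distrib]
  refine sum_congr rfl fun p _ => sum_congr rfl fun q _ => ?_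
  ring

include hL hQ in
/-- first inequality -/
lemma ineq1 (hn : Even n) (hn4 : 4 ≤ n) (hk : 1 ≤ k) : 2 * (k : ℤ) ≤ n ^ 2 - 2 * n + 2 := by
  have h0 : 0 ≤ ∑ p : Fin n × Fin n, ∑ q : Fin n × Fin n,
      w p q * (((n : ℤ) - 1) ^ 2 * s L p q ^ 2 + (-2 * k * ((n : ℤ) - 1)) * s L p q + (k : ℤ) ^ 2) := by
    refine sum_nonneg fun p _ => sum_nonneg fun q _ => mul_nonneg (w_nonneg p q) ?_
    nlinarith [sq_nonneg (((n : ℤ) - 1) * s L p q - k)]
  rw [quad_sum, ws_sum L hL, w_sum] at h0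
  have h1 := ws_sq_sum L hL hQ hn
  have hn1 : (4 : ℤ) ≤ n := by exact_mod_cast hn4
  have hk1 : (1 : ℤ) ≤ k := by exact_mod_cast hk
  have h2 := mul_le_mul_of_nonneg_left h1 (sq_nonneg ((n : ℤ) - 1))
  have h3 : 0 ≤ ((n : ℤ) - 1) ^ 2 * n * k * ((n : ℤ) ^ 2 - 2 * n + 2 - 2 * k) := by
    nlinarith [h0, h2]
  have h4 : 0 < ((n : ℤ) - 1) ^ 2 * n * k := by
    have : 0 < (n : ℤ) - 1 := by linarith
    positivity
  have h5 := nonneg_of_mul_nonneg_right h3 h4
  linarith

include hL hQ in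
/-- second inequality -/
lemma ineq2 (m : ℕ) (hm : n = 2 * m) (hn4 : 4 ≤ n) :
    4 * (k : ℤ) ≤ ((n : ℤ) * (n - 1) - 2 * k) ^ 2 := by
  have hn : Even n := ⟨m, by omega⟩
  have h0 : 0 ≤ ∑ p : Fin n × Fin n, ∑ q : Fin n × Fin n,
      w p q * (1 * s L p q ^ 2 + (-(2 * m - 1)) * s L p q + (m : ℤ) * (m - 1)) := by
    refine sum_nonneg fun p _ => sum_nonneg fun q _ => mul_nonneg (w_nonneg p q) ?_
    have h : 1 * s L p q ^ 2 + (-(2 * (m : ℤ) - 1)) * s L p q + (m : ℤ) * (m - 1) =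
      (s L p q - m) * (s L p q - (m - 1)) := by ring
    rw [h]
    rcases le_or_gt (m : ℤ) (s L p q) with h1 | h1
    · exact mul_nonneg (by linarith) (by linarith)
    · exact mul_nonneg_of_nonpos_of_nonpos (by linarith) (by linarith [Int.add_one_le_iff.2 h1])
  rw [quad_sum, ws_sum L hL, w_sum] at h0
  have h1 := ws_sq_sum L hL hQ hn
  have hn1 : (4 : ℤ) ≤ n := by exact_mod_cast hn4
  have hmn : (n : ℤ) = 2 * m := by exact_mod_cast hm
  have h3 : 0 ≤ ((n : ℤ) * (n - 2)) * (((n : ℤ) * (n - 1) - 2 * k) ^ 2 - 4 * k) := by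
    have e1 : (m : ℤ) * (m - 1) * 4 = n * (n - 2) := by rw [hmn]; ring
    have e2 : (2 * (m : ℤ) - 1) = n - 1 := by rw [hmn]
    rw [e2] at h0
    have key : ((n : ℤ) * (n - 2)) * (((n : ℤ) * (n - 1) - 2 * k) ^ 2 - 4 * k) =
        4 * (k * n ^ 3 + k * (k - 1) * (n * (n - 2) + n ^ 2) - n ^ 2 * k ^ 2) +
        4 * (-(n - 1) * (k * n ^ 3 - n ^ 2 * k)) + (n * (n - 2)) * (n ^ 2 * (n - 1) ^ 2) := by ring
    have e3 : ((n : ℤ) * (n - 2)) * ((n : ℤ) ^ 2 * ((n : ℤ) - 1) ^ 2) =
        4 * (m * (m - 1) * (n ^ 2 * (n - 1) ^ 2)) := by rw [← e1]; ring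
    rw [key, e3]
    linarith
  have h4 : 0 < ((n : ℤ) * (n - 2)) := by
    have : 0 < (n : ℤ) - 2 := by linarith
    positivity
  have h5 := nonneg_of_mul_nonneg_right h3 h4
  linarith

include hL hQ in
theorem main_bound (hn : Even n) (hn4 : 4 ≤ n) :
    (k : ℝ) + Real.sqrt k ≤ (n : ℝ) * ((n : ℝ) - 1) / 2 := by
  rcases Nat.eq_zero_or_pos k with hk | hk
  · subst hk
    have : (4 : ℝ) ≤ n := by exact_mod_cast hn4
    simp
    nlinarith
  · have h1 := ineq1 L hL hQ hn hn4 hk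
    obtain ⟨m, hm⟩ := hn
    have h2 := ineq2 L hL hQ m (by omega) hn4
    have h1' : 2 * (k : ℝ) ≤ (n : ℝ) ^ 2 - 2 * n + 2 := by exact_mod_cast h1
    have h2' : 4 * (k : ℝ) ≤ ((n : ℝ) * (n - 1) - 2 * k) ^ 2 := by exact_mod_cast h2
    have hn1 : (4 : ℝ) ≤ n := by exact_mod_cast hn4
    have h3 : Real.sqrt k ≤ (n : ℝ) * ((n : ℝ) - 1) / 2 - k := by
      rw [Real.sqrt_le_iff]
      constructor
      · nlinarith
      · nlinarith
    linarith

end counting

/-- For every even order `n ≥ 4`, a set of `k` mutually quasi-orthogonal latin squares of order `n`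
satisfies `k + √k ≤ n (n - 1) / 2`. -/
theorem result (n k : ℕ) (hn : Even n) (hn4 : 4 ≤ n)
    (L : Fin k → Fin n → Fin n → Fin n)
    (hL : ∀ a : Fin k, (∀ i : Fin n, Function.Bijective (L a i)) ∧
      (∀ j : Fin n, Function.Bijective (fun i : Fin n => L a i j)))
    (hQ : ∀ a b : Fin k, a ≠ b →
      (∀ u : Fin n,
        (Finset.univ.filter (fun p : Fin n × Fin n =>
          L a p.1 p.2 = u ∧ L b p.1 p.2 = u)).card = 1) ∧
      (∀ u v : Fin n, u ≠ v →
        (Finset.univ.filter (fun p : Fin n × Fin n =>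
          (L a p.1 p.2 = u ∧ L b p.1 p.2 = v) ∨
          (L a p.1 p.2 = v ∧ L b p.1 p.2 = u))).card = 2)) :
    (k : ℝ) + Real.sqrt (k : ℝ) ≤ (n : ℝ) * ((n : ℝ) - 1) / 2 :=
  main_bound L hL hQ hn hn4

end Pool.Agent.Results.MP_dea8c9_co.EvenOrderBound
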