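import Mathlib

set_option autoImplicit false

namespace Pool.Agent.Results.MP_dea8c9_co.HalfSubsquares

open Finset

/-- the sign of a truth value -/
def sgn (b : Bool) : ℝ := if b then -1 else 1

lemma sgn_xor (a b : Bool) : sgn (xor a b) = sgn a * sgn b := by
  cases a <;> cases b <;> simp [sgn]

lemma sgn_sq (a : Bool) : sgn a * sgn a = 1 := by
  cases a <;> simp [sgn]

lemma sgn_inj (a b : Bool) (h : sgn a = sgn b) : a = b := by
  cases a <;> cases b <;> first | rfl | (exfalso; norm_num [sgn] at h)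

variable {X : Type*} [Fintype X] [DecidableEq X]

/-- counting lemma -/
lemma sum_fiber {P : Type*} [Fintype P] (F : P → X × X) (f : X × X → ℝ) :
    ∑ p : P, f (F p) = ∑ u : X, ∑ v : X,
      ((univ.filter (fun p : P => (F p).1 = u ∧ (F p).2 = v)).card : ℝ) * f (u, v) := by
  classical
  have h1 : ∀ p : P, f (F p) = ∑ u : X, ∑ v : X, (if (F p).1 = u ∧ (F p).2 = v then f (u, v) else 0) := by
    intro p
    rw [sum_eq_single (F p).1]
    · rw [sum_eq_single (F p).2]
      · simp
      · intro v _ hv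
        rw [if_neg]
        rintro ⟨_, h⟩
        exact hv h.symm
      · simp
    · intro u _ hu
      refine sum_eq_zero fun v _ => ?_
      rw [if_neg]
      rintro ⟨h, _⟩
      exact hu h.symm
    · simp
  simp only [h1]
  rw [sum_comm]
  refine sum_congr rfl fun u _ => ?_
  rw [sum_comm]
  refine sum_congr rfl fun v _ => ?_
  rw [card_filter]
  push_cast
  rw [sum_mul]
  refine sum_congr rfl fun p _ => ?_
  split_ifs <;> simp

omit [DecidableEq X] in
/-- the colour sums vanish -/
lemma sums_zero (C : X → X → X)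
    (hrow : ∀ i, Function.Bijective (C i)) (hcol : ∀ j, Function.Bijective (fun i => C i j))
    (χ ρ κ : X → Bool) (hχ : ∃ u v, χ u ≠ χ v) (hb : ∀ i j, χ (C i j) = xor (ρ i) (κ j)) :
    ∑ u : X, sgn (χ u) = 0 ∧ ∑ i : X, sgn (ρ i) = 0 := by
  classical
  have h1 : ∀ i : X, ∑ u : X, sgn (χ u) = sgn (ρ i) * ∑ j : X, sgn (κ j) := by
    intro i
    rw [← Equiv.sum_comp (Equiv.ofBijective (C i) (hrow i)) (fun u => sgn (χ u)), mul_sum]
    refine sum_congr rfl fun j _ => ?_
    simp only [Equiv.ofBijective_apply]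
    rw [hb, sgn_xor]
  have h2 : ∀ j : X, ∑ u : X, sgn (χ u) = sgn (κ j) * ∑ i : X, sgn (ρ i) := by
    intro j
    rw [← Equiv.sum_comp (Equiv.ofBijective (fun i => C i j) (hcol j)) (fun u => sgn (χ u)), mul_sum]
    refine sum_congr rfl fun i _ => ?_
    simp only [Equiv.ofBijective_apply]
    rw [hb, sgn_xor]; ring
  obtain ⟨u0, v0, huv⟩ := hχ
  have hz : ∑ u : X, sgn (χ u) = 0 := by
    by_contra hne
    have hκ : ∑ j : X, sgn (κ j) ≠ 0 := by
      intro h
      apply hne
      rw [h1 u0, h, mul_zero]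
    have hρ : ∑ i : X, sgn (ρ i) ≠ 0 := by
      intro h
      apply hne
      rw [h2 u0, h, mul_zero]
    have hρc : ∀ i i' : X, ρ i = ρ i' := by
      intro i i'
      apply sgn_inj
      have := (h1 i).symm.trans (h1 i')
      exact mul_right_cancel₀ hκ this
    have hκc : ∀ j j' : X, κ j = κ j' := by
      intro j j'
      apply sgn_inj
      have := (h2 j).symm.trans (h2 j')
      exact mul_right_cancel₀ hρ this
    apply huv
    obtain ⟨j, hj⟩ := (hrow u0).2 u0
    obtain ⟨j', hj'⟩ := (hrow u0).2 v0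
    rw [← hj, ← hj', hb, hb, hκc j j']
  refine ⟨hz, ?_⟩
  have h3 := h2 u0
  rw [hz] at h3
  rcases mul_eq_zero.1 h3.symm with h | h
  · exfalso
    have := sgn_sq (κ u0)
    rw [h] at this
    norm_num at this
  · exact h

lemma orth (C : X → X → X)
    (χ ρ κ : X → Bool) (hb : ∀ i j, χ (C i j) = xor (ρ i) (κ j))
    (hz : ∑ u : X, sgn (χ u) = 0) (hX : Nonempty X) (s t : X → X)
    (hN : ∀ u v : X, (univ.filter (fun p : X × X => C (s p.1) p.2 = u ∧ C (t p.1) p.2 = v)).card +
      (univ.filter (fun p : X × X => C (s p.1) p.2 = v ∧ C (t p.1) p.2 = u)).card = 2) :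
    ∑ x : X, sgn (ρ (s x)) * sgn (ρ (t x)) = 0 := by
  classical
  have h0 := sum_fiber (fun p : X × X => (C (s p.1) p.2, C (t p.1) p.2))
    (fun w => sgn (χ w.1) * sgn (χ w.2))
  simp only at h0
  set N : X → X → ℝ := fun u v =>
    ((univ.filter (fun p : X × X => C (s p.1) p.2 = u ∧ C (t p.1) p.2 = v)).card : ℝ) with hNdef
  have h1 : ∑ u : X, ∑ v : X, N u v * (sgn (χ u) * sgn (χ v)) = 0 := by
    have e1 : ∑ u : X, ∑ v : X, N u v * (sgn (χ u) * sgn (χ v)) =
        ∑ u : X, ∑ v : X, N v u * (sgn (χ u) * sgn (χ v)) := by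
      rw [sum_comm]
      refine sum_congr rfl fun u _ => sum_congr rfl fun v _ => ?_
      ring
    have e2 : ∑ u : X, ∑ v : X, N u v * (sgn (χ u) * sgn (χ v)) +
        ∑ u : X, ∑ v : X, N v u * (sgn (χ u) * sgn (χ v)) =
        ∑ u : X, ∑ v : X, 2 * (sgn (χ u) * sgn (χ v)) := by
      rw [← sum_add_distrib]
      refine sum_congr rfl fun u _ => ?_
      rw [← sum_add_distrib]
      refine sum_congr rfl fun v _ => ?_
      have h := hN u v
      have h' : N u v + N v u = 2 := by
        simp only [hNdef]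
        exact_mod_cast h
      rw [← add_mul, h']
    have e3 : ∑ u : X, ∑ v : X, 2 * (sgn (χ u) * sgn (χ v)) = 0 := by
      have : ∀ u : X, ∑ v : X, 2 * (sgn (χ u) * sgn (χ v)) = 0 := by
        intro u
        rw [← mul_sum, ← mul_sum, hz]
        ring
      simp only [this, sum_const_zero]
    linarith
  rw [h1] at h0
  have h2 : ∑ p : X × X, sgn (χ (C (s p.1) p.2)) * sgn (χ (C (t p.1) p.2)) =
      (Fintype.card X : ℝ) * ∑ x : X, sgn (ρ (s x)) * sgn (ρ (t x)) := by
    rw [Fintype.sum_prod_type]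
    have : ∀ x : X, ∑ y : X, sgn (χ (C (s x) y)) * sgn (χ (C (t x) y)) =
        (Fintype.card X : ℝ) * (sgn (ρ (s x)) * sgn (ρ (t x))) := by
      intro x
      have e : ∀ y : X, sgn (χ (C (s x) y)) * sgn (χ (C (t x) y)) =
          sgn (ρ (s x)) * sgn (ρ (t x)) := by
        intro y
        rw [hb, hb, sgn_xor, sgn_xor]
        have := sgn_sq (κ y)
        linear_combination (sgn (ρ (s x)) * sgn (ρ (t x))) * this
      simp only [e]
      rw [sum_const, nsmul_eq_mul, card_univ]
    simp only [this]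
    rw [← mul_sum]
  rw [h2] at h0
  have hc : (Fintype.card X : ℝ) ≠ 0 := by
    have : 0 < Fintype.card X := Fintype.card_pos
    positivity
  exact (mul_eq_zero.1 h0).resolve_left hc

/-- the vectors -/
noncomputable def vec (ρ : X → Bool) {k : ℕ} (θ : Fin k → X → X) :
    Option (Fin k) → EuclideanSpace ℝ X
  | none => WithLp.toLp 2 (fun _ => 1)
  | some a => WithLp.toLp 2 (fun x => sgn (ρ (θ a x)))

/-- Let `C` be a latin square on a finite set `X` whose rows, columns and symbols can be two-coloured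
(symbols not all alike) so that the colour of `C i j` is the sum of the colours of `i` and `j`.
Mutually quasi-orthogonal latin squares which all arise from `C` by permuting its rows number at
most `|X| - 1`. -/
theorem result (C : X → X → X)
    (hrow : ∀ i, Function.Bijective (C i)) (hcol : ∀ j, Function.Bijective (fun i => C i j))
    (χ ρ κ : X → Bool) (hχ : ∃ u v, χ u ≠ χ v) (hb : ∀ i j, χ (C i j) = xor (ρ i) (κ j))
    (k : ℕ) (θ : Fin k → X → X) (hθ : ∀ a : Fin k, Function.Bijective (θ a))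
    (hQ : ∀ a b : Fin k, a ≠ b →
      (∀ u : X, (Finset.univ.filter (fun p : X × X =>
        C (θ a p.1) p.2 = u ∧ C (θ b p.1) p.2 = u)).card = 1) ∧
      (∀ u v : X, u ≠ v → (Finset.univ.filter (fun p : X × X =>
        (C (θ a p.1) p.2 = u ∧ C (θ b p.1) p.2 = v) ∨
        (C (θ a p.1) p.2 = v ∧ C (θ b p.1) p.2 = u))).card = 2)) :
    k + 1 ≤ Fintype.card X := by
  classical
  obtain ⟨u0, v0, huv0⟩ := hχ
  have hX : Nonempty X := ⟨u0⟩
  obtain ⟨hz, hρz⟩ := sums_zero C hrow hcol χ ρ κ ⟨u0, v0, huv0⟩ hb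
  have hN : ∀ a b : Fin k, a ≠ b → ∀ u v : X,
      (univ.filter (fun p : X × X => C (θ a p.1) p.2 = u ∧ C (θ b p.1) p.2 = v)).card +
      (univ.filter (fun p : X × X => C (θ a p.1) p.2 = v ∧ C (θ b p.1) p.2 = u)).card = 2 := by
    intro a b hab u v
    by_cases huv : u = v
    · subst huv
      rw [(hQ a b hab).1 u]
    · have h := (hQ a b hab).2 u v huv
      rw [← h, filter_or, card_union_of_disjoint]
      rw [disjoint_filter]
      rintro p _ ⟨h1, _⟩ ⟨h2, _⟩
      exact huv (h1.symm.trans h2)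
  have hsum : ∀ a : Fin k, ∑ x : X, sgn (ρ (θ a x)) = 0 := by
    intro a
    have := (Equiv.sum_comp (Equiv.ofBijective (θ a) (hθ a)) (fun i => sgn (ρ i)))
    simp only [Equiv.ofBijective_apply] at this
    rw [this, hρz]
  have hinner : ∀ i j : Option (Fin k), i ≠ j → inner ℝ (vec ρ θ i) (vec ρ θ j) = 0 := by
    intro i j hij
    rcases i with _ | a <;> rcases j with _ | b
    · exact absurd rfl hij
    · simp [vec, PiLp.inner_apply, hsum b]
    · simp [vec, PiLp.inner_apply, hsum a]
    · have hab : a ≠ b := fun h => hij (by rw [h])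
      have := orth C χ ρ κ hb hz hX (θ a) (θ b) (hN a b hab)
      simp only [vec, PiLp.inner_apply]
      simpa [mul_comm] using this
  have hne : ∀ i : Option (Fin k), vec ρ θ i ≠ 0 := by
    intro i h0
    have h1 : (vec ρ θ i) u0 = 0 := by rw [h0]; rfl
    rcases i with _ | a
    · simp [vec] at h1
    · have h2 : sgn (ρ (θ a u0)) = 0 := by simpa [vec] using h1
      have h3 := sgn_sq (ρ (θ a u0))
      rw [h2] at h3
      norm_num at h3
  have hli : LinearIndependent ℝ (vec ρ θ) :=
    linearIndependent_of_ne_zero_of_inner_eq_zero hne hinner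
  have := hli.fintype_card_le_finrank
  simpa using this

end Pool.Agent.Results.MP_dea8c9_co.HalfSubsquares
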