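import Mathlib

set_option autoImplicit false

namespace Pool.Agent.Results.MP_dea8c9_co.OrderTen

open Finset

/-- data of the four squares: entry in the cell `(i, i + d)` is `i + al c d` modulo `9`
(the value `9` means infinity) -/
def al (c d : ℕ) : ℕ :=
  ((([[9, 4, 3, 7, 2, 1, 8, 6, 5], [8, 5, 9, 4, 7, 2, 6, 3, 1], [0, 2, 1, 6, 9, 7, 4, 3, 5],
    [4, 7, 1, 3, 6, 8, 2, 5, 9]] : List (List ℕ)).getD c []).getD d 0)

/-- last column -/
def ga (c : ℕ) : ℕ := ([0, 0, 8, 0] : List ℕ).getD c 0

/-- last row -/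
def be (c : ℕ) : ℕ := ([0, 7, 4, 1] : List ℕ).getD c 0

/-- entries as natural numbers -/
def s0 (c i j : ℕ) : ℕ :=
  if i = 9 then (if j = 9 then 9 else (j + be c) % 9) else
    if j = 9 then (i + ga c) % 9 else
      let x := al c ((j + 9 - i) % 9)
      if x = 9 then 9 else (i + x) % 9

/-- the squares -/
def S (c : ℕ) (i j : Fin 10) : Fin 10 :=
  ⟨s0 c i j % 10, Nat.mod_lt _ (by norm_num)⟩

/-- superposition counts -/
def N (a b : ℕ) (u v : Fin 10) : ℕ :=
  (univ.filter (fun p : Fin 10 × Fin 10 => S a p.1 p.2 = u ∧ S b p.1 p.2 = v)).card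

set_option maxRecDepth 100000 in
lemma count_pair : ∀ a b : Fin 4, a ≠ b → ∀ u v : Fin 10, N a b u v + N a b v u = 2 := by
  decide +kernel

set_option maxRecDepth 100000 in
lemma row_inj : ∀ c : Fin 4, ∀ i : Fin 10, Function.Injective (S c i) := by
  decide +kernel

set_option maxRecDepth 100000 in
lemma col_inj : ∀ c : Fin 4, ∀ j : Fin 10, Function.Injective (fun i => S c i j) := by
  decide +kernel

/-- superposition count of two arrays on a finite type -/
def cc {α : Type} [Fintype α] [DecidableEq α] (A B : α → α → α) (u v : α) : ℕ :=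
  (univ.filter (fun p : α × α => A p.1 p.2 = u ∧ B p.1 p.2 = v)).card

/-- direct product of arrays, transported to `Fin (n * m)` -/
def prodArr {n m : ℕ} (A : Fin n → Fin n → Fin n) (M : Fin m → Fin m → Fin m)
    (x y : Fin (n * m)) : Fin (n * m) :=
  finProdFinEquiv (A (finProdFinEquiv.symm x).1 (finProdFinEquiv.symm y).1,
    M (finProdFinEquiv.symm x).2 (finProdFinEquiv.symm y).2)

lemma prodArr_apply {n m : ℕ} (A : Fin n → Fin n → Fin n) (M : Fin m → Fin m → Fin m)
    (a c : Fin n) (b d : Fin m) :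
    prodArr A M (finProdFinEquiv (a, b)) (finProdFinEquiv (c, d)) =
      finProdFinEquiv (A a c, M b d) := by
  simp [prodArr]

lemma cc_prod {n m : ℕ} (A B : Fin n → Fin n → Fin n) (M P : Fin m → Fin m → Fin m)
    (u v : Fin (n * m)) :
    cc (prodArr A M) (prodArr B P) u v =
      cc A B (finProdFinEquiv.symm u).1 (finProdFinEquiv.symm v).1 *
        cc M P (finProdFinEquiv.symm u).2 (finProdFinEquiv.symm v).2 := by
  classical
  unfold cc
  rw [← card_product]
  refine card_bij (fun p _ =>
    (((finProdFinEquiv.symm p.1).1, (finProdFinEquiv.symm p.2).1),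
      ((finProdFinEquiv.symm p.1).2, (finProdFinEquiv.symm p.2).2))) ?_ ?_ ?_
  · intro p hp
    simp only [mem_filter, mem_univ, true_and, mem_product] at hp ⊢
    obtain ⟨h1, h2⟩ := hp
    rw [← h1, ← h2]
    simp [prodArr]
  · intro p _ q _ h
    simp only [Prod.mk.injEq] at h
    obtain ⟨⟨h1, h2⟩, h3, h4⟩ := h
    refine Prod.ext ?_ ?_
    · exact finProdFinEquiv.symm.injective (Prod.ext h1 h3)
    · exact finProdFinEquiv.symm.injective (Prod.ext h2 h4)
  · intro q hq
    simp only [mem_filter, mem_univ, true_and, mem_product] at hq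
    obtain ⟨⟨h1, h2⟩, h3, h4⟩ := hq
    refine ⟨(finProdFinEquiv (q.1.1, q.2.1), finProdFinEquiv (q.1.2, q.2.2)), ?_, ?_⟩
    · rw [mem_filter]
      refine ⟨mem_univ _, ?_, ?_⟩
      · show prodArr A M (finProdFinEquiv (q.1.1, q.2.1)) (finProdFinEquiv (q.1.2, q.2.2)) = u
        rw [prodArr_apply, h1, h3]
        exact Equiv.apply_symm_apply _ u
      · show prodArr B P (finProdFinEquiv (q.1.1, q.2.1)) (finProdFinEquiv (q.1.2, q.2.2)) = v
        rw [prodArr_apply, h2, h4]
        exact Equiv.apply_symm_apply _ v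
    · simp

lemma or_card {α : Type} [Fintype α] [DecidableEq α] (A B : α → α → α) (u v : α) (huv : u ≠ v) :
    (univ.filter (fun p : α × α =>
      (A p.1 p.2 = u ∧ B p.1 p.2 = v) ∨ (A p.1 p.2 = v ∧ B p.1 p.2 = u))).card =
      cc A B u v + cc A B v u := by
  classical
  unfold cc
  rw [filter_or, card_union_of_disjoint]
  rw [disjoint_filter]
  rintro p _ ⟨h1, _⟩ ⟨h2, _⟩
  exact huv (h1.symm.trans h2)

/-- For every `m` and `k ≤ 4`: from `k` pairwise orthogonal latin squares of order `m` one gets
`k` mutually quasi-orthogonal latin squares of order `10 m`.  With `m = 1` and `k = 4` this is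
`N_q(10) ≥ 4`. -/
theorem result (m k : ℕ) (hk : k ≤ 4)
    (hM : ∃ M : Fin k → Fin m → Fin m → Fin m,
      (∀ a : Fin k, (∀ i : Fin m, Function.Bijective (M a i)) ∧
        (∀ j : Fin m, Function.Bijective (fun i : Fin m => M a i j))) ∧
      ∀ a b : Fin k, a ≠ b → ∀ u v : Fin m,
        (Finset.univ.filter (fun p : Fin m × Fin m =>
          M a p.1 p.2 = u ∧ M b p.1 p.2 = v)).card = 1) :
    ∃ L : Fin k → Fin (10 * m) → Fin (10 * m) → Fin (10 * m),
      (∀ a : Fin k, (∀ i : Fin (10 * m), Function.Bijective (L a i)) ∧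
        (∀ j : Fin (10 * m), Function.Bijective (fun i : Fin (10 * m) => L a i j))) ∧
      ∀ a b : Fin k, a ≠ b →
        (∀ u : Fin (10 * m),
          (Finset.univ.filter (fun p : Fin (10 * m) × Fin (10 * m) =>
            L a p.1 p.2 = u ∧ L b p.1 p.2 = u)).card = 1) ∧
        (∀ u v : Fin (10 * m), u ≠ v →
          (Finset.univ.filter (fun p : Fin (10 * m) × Fin (10 * m) =>
            (L a p.1 p.2 = u ∧ L b p.1 p.2 = v) ∨
            (L a p.1 p.2 = v ∧ L b p.1 p.2 = u))).card = 2) := by
  classical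
  obtain ⟨M, hM1, hM2⟩ := hM
  let emb : Fin k → Fin 4 := fun a => ⟨a, lt_of_lt_of_le a.2 hk⟩
  have hemb : ∀ a b : Fin k, a ≠ b → emb a ≠ emb b := by
    intro a b hab h
    exact hab (Fin.ext (by simpa [emb] using congrArg Fin.val h))
  refine ⟨fun a => prodArr (S (emb a)) (M a), ?_, ?_⟩
  · intro a
    constructor
    · intro i
      have h1 : Function.Bijective (S (emb a) (finProdFinEquiv.symm i).1) :=
        Finite.injective_iff_bijective.1 (row_inj (emb a) _)
      have h2 := (hM1 a).1 (finProdFinEquiv.symm i).2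
      exact (finProdFinEquiv.bijective.comp (h1.prodMap h2)).comp finProdFinEquiv.symm.bijective
    · intro j
      have h1 : Function.Bijective (fun i => S (emb a) i (finProdFinEquiv.symm j).1) :=
        Finite.injective_iff_bijective.1 (col_inj (emb a) _)
      have h2 := (hM1 a).2 (finProdFinEquiv.symm j).2
      exact (finProdFinEquiv.bijective.comp (h1.prodMap h2)).comp finProdFinEquiv.symm.bijective
  · intro a b hab
    have key : ∀ u v : Fin (10 * m), cc (prodArr (S (emb a)) (M a)) (prodArr (S (emb b)) (M b)) u v +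
        cc (prodArr (S (emb a)) (M a)) (prodArr (S (emb b)) (M b)) v u = 2 := by
      intro u v
      rw [cc_prod, cc_prod]
      have e1 : cc (M a) (M b) (finProdFinEquiv.symm u).2 (finProdFinEquiv.symm v).2 = 1 :=
        hM2 a b hab _ _
      have e2 : cc (M a) (M b) (finProdFinEquiv.symm v).2 (finProdFinEquiv.symm u).2 = 1 :=
        hM2 a b hab _ _
      rw [e1, e2, mul_one, mul_one]
      exact count_pair (emb a) (emb b) (hemb a b hab) _ _
    constructor
    · intro u
      have := key u u
      change cc _ _ u u = 1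
      omega
    · intro u v huv
      have := key u v
      rw [← this]
      exact or_card _ _ u v huv

end Pool.Agent.Results.MP_dea8c9_co.OrderTen
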