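import Mathlib

set_option autoImplicit false

namespace Pool.Agent.Results.MP_dea8c9_co.OrderTwelve

open Finset

/-- the base square on the numbers `0, …, 11` (the number `11` plays the role of infinity) -/
def s0 (i j : ℕ) : ℕ :=
  if i = 11 then j else if j = 11 then i else if i = j then 11 else
    let x := (j + 11 - i) % 11
    if x = 1 ∨ x = 3 ∨ x = 4 ∨ x = 5 ∨ x = 9 then (i + 7 * x) % 11 else (i + 8 * x) % 11

/-- column shift by `c` fixing `11` -/
def sh (c j : ℕ) : ℕ := if j = 11 then 11 else (j + c) % 11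

/-- column shift on `Fin 12` -/
def shf (c : ℕ) (j : Fin 12) : Fin 12 := ⟨sh c j, by
  have := j.2
  unfold sh
  split_ifs <;> omega⟩

/-- the squares -/
def S (c : ℕ) (i j : Fin 12) : Fin 12 :=
  ⟨s0 i (sh c j) % 12, Nat.mod_lt _ (by norm_num)⟩

/-- superposition counts -/
def N (a b : ℕ) (u v : Fin 12) : ℕ :=
  (univ.filter (fun p : Fin 12 × Fin 12 => S a p.1 p.2 = u ∧ S b p.1 p.2 = v)).card

set_option maxRecDepth 100000 in
lemma base_count : ∀ d : Fin 11, d ≠ 0 → ∀ u v : Fin 12, N 0 d u v + N 0 d v u = 2 := by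
  decide +kernel

set_option maxRecDepth 100000 in
lemma row_inj : ∀ c : Fin 11, ∀ i : Fin 12, Function.Injective (S c i) := by
  decide +kernel

set_option maxRecDepth 100000 in
lemma col_inj : ∀ c : Fin 11, ∀ j : Fin 12, Function.Injective (fun i => S c i j) := by
  decide +kernel

set_option maxRecDepth 100000 in
lemma shf_inj : ∀ c : Fin 11, Function.Injective (shf c) := by
  decide +kernel

lemma sh_add (a d j : ℕ) : sh d (sh a j) = sh (a + d) j := by
  unfold sh
  split_ifs with h1 h2 h3 <;> omega

lemma S_shift (a d : ℕ) (i j : Fin 12) : S (a + d) i j = S d i (shf a j) := by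
  unfold S shf
  simp only [sh_add]

lemma count_shift (a : Fin 11) (d : ℕ) (u v : Fin 12) : N a (a + d) u v = N 0 d u v := by
  unfold N
  have hb : Function.Bijective (shf a) := Finite.injective_iff_bijective.1 (shf_inj a)
  refine card_bij (fun p _ => (p.1, shf a p.2)) ?_ ?_ ?_
  · intro p hp
    simp only [mem_filter, mem_univ, true_and] at hp ⊢
    obtain ⟨h1, h2⟩ := hp
    constructor
    · rw [← h1]
      have := S_shift a 0 p.1 p.2
      rw [add_zero] at this
      rw [this]
    · rw [← h2, S_shift a d]
  · intro p _ q _ h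
    simp only [Prod.mk.injEq] at h
    exact Prod.ext h.1 (hb.1 h.2)
  · intro q hq
    simp only [mem_filter, mem_univ, true_and] at hq
    obtain ⟨j, hj⟩ := hb.2 q.2
    refine ⟨(q.1, j), ?_, ?_⟩
    · simp only [mem_filter, mem_univ, true_and]
      obtain ⟨h1, h2⟩ := hq
      constructor
      · rw [← h1, ← hj]
        have := S_shift a 0 q.1 j
        rw [add_zero] at this
        rw [this]
      · rw [← h2, S_shift a d, hj]
    · simp [hj]

lemma N_swap (a b : ℕ) (u v : Fin 12) : N a b u v = N b a v u := by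
  unfold N
  congr 1
  ext p
  simp only [mem_filter, mem_univ, true_and]
  exact and_comm

/-- the counts for two different squares -/
lemma count_pair (a b : Fin 11) (hab : a ≠ b) (u v : Fin 12) : N a b u v + N a b v u = 2 := by
  rcases lt_or_gt_of_ne hab with h | h
  · have h1 : (b : ℕ) = a + ((b : ℕ) - a) := by omega
    rw [h1, count_shift, count_shift]
    have h2 : ((b : ℕ) - a) < 11 := by omega
    have := base_count ⟨(b : ℕ) - a, h2⟩ (by
      intro h3
      have := congrArg Fin.val h3
      simp at this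
      omega) u v
    simpa using this
  · have h1 : (a : ℕ) = b + ((a : ℕ) - b) := by omega
    rw [N_swap a b u v, N_swap a b v u, h1, count_shift, count_shift]
    have h2 : ((a : ℕ) - b) < 11 := by omega
    have := base_count ⟨(a : ℕ) - b, h2⟩ (by
      intro h3
      have := congrArg Fin.val h3
      simp at this
      omega) v u
    simpa using this

/-- superposition count of two arrays on a finite type -/
def cc {α : Type} [Fintype α] [DecidableEq α] (A B : α → α → α) (u v : α) : ℕ :=
  (univ.filter (fun p : α × α => A p.1 p.2 = u ∧ B p.1 p.2 = v)).card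

/-- direct product of arrays, transported to `Fin (n * m)` -/
def prodArr {n m : ℕ} (A : Fin n → Fin n → Fin n) (M : Fin m → Fin m → Fin m)
    (x y : Fin (n * m)) : Fin (n * m) :=
  finProdFinEquiv (A (finProdFinEquiv.symm x).1 (finProdFinEquiv.symm y).1,
    M (finProdFinEquiv.symm x).2 (finProdFinEquiv.symm y).2)

lemma prodArr_apply {n m : ℕ} (A : Fin n → Fin n → Fin n) (M : Fin m → Fin m → Fin m)
    (a c : Fin n) (b d : Fin m) :
    prodArr A M (finProdFinEquiv (a, b)) (finProdFinEquiv (c, d)) =
      finProdFinEquiv (A a c, M b d) := by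
  simp [prodArr]

lemma cc_prod {n m : ℕ} (A B : Fin n → Fin n → Fin n) (M P : Fin m → Fin m → Fin m)
    (u v : Fin (n * m)) :
    cc (prodArr A M) (prodArr B P) u v =
      cc A B (finProdFinEquiv.symm u).1 (finProdFinEquiv.symm v).1 *
        cc M P (finProdFinEquiv.symm u).2 (finProdFinEquiv.symm v).2 := by
  classical
  unfold cc
  rw [← card_product]
  refine card_bij (fun p _ =>
    (((finProdFinEquiv.symm p.1).1, (finProdFinEquiv.symm p.2).1),
      ((finProdFinEquiv.symm p.1).2, (finProdFinEquiv.symm p.2).2))) ?_ ?_ ?_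
  · intro p hp
    simp only [mem_filter, mem_univ, true_and, mem_product] at hp ⊢
    obtain ⟨h1, h2⟩ := hp
    rw [← h1, ← h2]
    simp [prodArr]
  · intro p _ q _ h
    simp only [Prod.mk.injEq] at h
    obtain ⟨⟨h1, h2⟩, h3, h4⟩ := h
    refine Prod.ext ?_ ?_
    · exact finProdFinEquiv.symm.injective (Prod.ext h1 h3)
    · exact finProdFinEquiv.symm.injective (Prod.ext h2 h4)
  · intro q hq
    simp only [mem_filter, mem_univ, true_and, mem_product] at hq
    obtain ⟨⟨h1, h2⟩, h3, h4⟩ := hq
    refine ⟨(finProdFinEquiv (q.1.1, q.2.1), finProdFinEquiv (q.1.2, q.2.2)), ?_, ?_⟩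
    · rw [mem_filter]
      refine ⟨mem_univ _, ?_, ?_⟩
      · show prodArr A M (finProdFinEquiv (q.1.1, q.2.1)) (finProdFinEquiv (q.1.2, q.2.2)) = u
        rw [prodArr_apply, h1, h3]
        exact Equiv.apply_symm_apply _ u
      · show prodArr B P (finProdFinEquiv (q.1.1, q.2.1)) (finProdFinEquiv (q.1.2, q.2.2)) = v
        rw [prodArr_apply, h2, h4]
        exact Equiv.apply_symm_apply _ v
    · simp

lemma or_card {α : Type} [Fintype α] [DecidableEq α] (A B : α → α → α) (u v : α) (huv : u ≠ v) :
    (univ.filter (fun p : α × α =>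
      (A p.1 p.2 = u ∧ B p.1 p.2 = v) ∨ (A p.1 p.2 = v ∧ B p.1 p.2 = u))).card =
      cc A B u v + cc A B v u := by
  classical
  unfold cc
  rw [filter_or, card_union_of_disjoint]
  rw [disjoint_filter]
  rintro p _ ⟨h1, _⟩ ⟨h2, _⟩
  exact huv (h1.symm.trans h2)

/-- For every `m ≥ 1` and `k ≤ 11`: from `k` pairwise orthogonal latin squares of order `m` one gets
`k` mutually quasi-orthogonal latin squares of order `12 m`.  With `m = 1` and `k = 11` this is
`N_q(12) ≥ 11`. -/
theorem result (m k : ℕ) (hk : k ≤ 11)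
    (hM : ∃ M : Fin k → Fin m → Fin m → Fin m,
      (∀ a : Fin k, (∀ i : Fin m, Function.Bijective (M a i)) ∧
        (∀ j : Fin m, Function.Bijective (fun i : Fin m => M a i j))) ∧
      ∀ a b : Fin k, a ≠ b → ∀ u v : Fin m,
        (Finset.univ.filter (fun p : Fin m × Fin m =>
          M a p.1 p.2 = u ∧ M b p.1 p.2 = v)).card = 1) :
    ∃ L : Fin k → Fin (12 * m) → Fin (12 * m) → Fin (12 * m),
      (∀ a : Fin k, (∀ i : Fin (12 * m), Function.Bijective (L a i)) ∧
        (∀ j : Fin (12 * m), Function.Bijective (fun i : Fin (12 * m) => L a i j))) ∧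
      ∀ a b : Fin k, a ≠ b →
        (∀ u : Fin (12 * m),
          (Finset.univ.filter (fun p : Fin (12 * m) × Fin (12 * m) =>
            L a p.1 p.2 = u ∧ L b p.1 p.2 = u)).card = 1) ∧
        (∀ u v : Fin (12 * m), u ≠ v →
          (Finset.univ.filter (fun p : Fin (12 * m) × Fin (12 * m) =>
            (L a p.1 p.2 = u ∧ L b p.1 p.2 = v) ∨
            (L a p.1 p.2 = v ∧ L b p.1 p.2 = u))).card = 2) := by
  classical
  obtain ⟨M, hM1, hM2⟩ := hM
  let emb : Fin k → Fin 11 := fun a => ⟨a, lt_of_lt_of_le a.2 hk⟩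
  have hemb : ∀ a b : Fin k, a ≠ b → emb a ≠ emb b := by
    intro a b hab h
    exact hab (Fin.ext (by simpa [emb] using congrArg Fin.val h))
  refine ⟨fun a => prodArr (S (emb a)) (M a), ?_, ?_⟩
  · intro a
    constructor
    · intro i
      have h1 : Function.Bijective (S (emb a) (finProdFinEquiv.symm i).1) :=
        Finite.injective_iff_bijective.1 (row_inj (emb a) _)
      have h2 := (hM1 a).1 (finProdFinEquiv.symm i).2
      exact (finProdFinEquiv.bijective.comp (h1.prodMap h2)).comp finProdFinEquiv.symm.bijective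
    · intro j
      have h1 : Function.Bijective (fun i => S (emb a) i (finProdFinEquiv.symm j).1) :=
        Finite.injective_iff_bijective.1 (col_inj (emb a) _)
      have h2 := (hM1 a).2 (finProdFinEquiv.symm j).2
      exact (finProdFinEquiv.bijective.comp (h1.prodMap h2)).comp finProdFinEquiv.symm.bijective
  · intro a b hab
    have key : ∀ u v : Fin (12 * m), cc (prodArr (S (emb a)) (M a)) (prodArr (S (emb b)) (M b)) u v +
        cc (prodArr (S (emb a)) (M a)) (prodArr (S (emb b)) (M b)) v u = 2 := by
      intro u v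
      rw [cc_prod, cc_prod]
      have e1 : cc (M a) (M b) (finProdFinEquiv.symm u).2 (finProdFinEquiv.symm v).2 = 1 :=
        hM2 a b hab _ _
      have e2 : cc (M a) (M b) (finProdFinEquiv.symm v).2 (finProdFinEquiv.symm u).2 = 1 :=
        hM2 a b hab _ _
      rw [e1, e2, mul_one, mul_one]
      exact count_pair (emb a) (emb b) (hemb a b hab) _ _
    constructor
    · intro u
      have := key u u
      change cc _ _ u u = 1
      omega
    · intro u v huv
      have := key u v
      rw [← this]
      exact or_card _ _ u v huv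

end Pool.Agent.Results.MP_dea8c9_co.OrderTwelve
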